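import Pool.Agent.N627.ND.Stm

/-!
# Project ND, A2: compactness for links (helper953)
-/

set_option autoImplicit false

namespace Pool.Agent.N953.ND

open Pool.Agent.N627.ND Filter

section

variable (V : ℕ → Type)

/-- equality almost everywhere along the ultrafilter -/
def SU : Setoid (∀ l, V l) where
  r f g := ∀ᶠ l in (hyperfilter ℕ : Filter ℕ), f l = g l
  iseqv :=
    { refl := fun _ => Eventually.of_forall fun _ => rfl
      symm := fun h => h.mono fun _ h => h.symm
      trans := fun h1 h2 => (h1.and h2).mono fun _ h => h.1.trans h.2 }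

/-- the ultraproduct -/
abbrev VS : Type := Quotient (SU V)

/-- the class of a function -/
def cl (f : ∀ l, V l) : VS V := Quotient.mk (SU V) f

theorem cl_eq (f g : ∀ l, V l) : cl V f = cl V g ↔ ∀ᶠ l in (hyperfilter ℕ : Filter ℕ), f l = g l :=
  Quotient.eq (r := SU V)

/-- a representative -/
noncomputable def rp (x : VS V) : ∀ l, V l := Quotient.out x

theorem cl_rp (x : VS V) : cl V (rp V x) = x := Quotient.out_eq x

theorem rp_cl (f : ∀ l, V l) : ∀ᶠ l in (hyperfilter ℕ : Filter ℕ), rp V (cl V f) l = f l :=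
  (cl_eq V _ _).1 (cl_rp V (cl V f))

variable {V} (G : ∀ l, SimpleGraph (V l))

/-- the ultraproduct of the graphs -/
noncomputable def GS : SimpleGraph (VS V) where
  Adj x y := ∀ᶠ l in (hyperfilter ℕ : Filter ℕ), (G l).Adj (rp V x l) (rp V y l)
  symm := ⟨fun _ _ h => h.mono fun _ h => h.symm⟩
  loopless := ⟨fun _ h => by
    obtain ⟨l, hl⟩ := h.exists
    exact (G l).loopless.irrefl _ hl⟩

theorem GS_adj (f g : ∀ l, V l) :
    (GS G).Adj (cl V f) (cl V g) ↔ ∀ᶠ l in (hyperfilter ℕ : Filter ℕ), (G l).Adj (f l) (g l) := by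
  have hf := rp_cl V f
  have hg := rp_cl V g
  show (∀ᶠ l in (hyperfilter ℕ : Filter ℕ), (G l).Adj (rp V (cl V f) l) (rp V (cl V g) l)) ↔ _
  constructor
  · intro h
    filter_upwards [h, hf, hg] with l h1 h2 h3
    rwa [h2, h3] at h1
  · intro h
    filter_upwards [h, hf, hg] with l h1 h2 h3
    rwa [h2, h3]

/-- finitely many atomic statements hold in one of the factors -/
theorem transfer {T : Set (VS V)} (hT : T.Finite) : ∃ l, ∀ x ∈ T, ∀ y ∈ T,
    (rp V x l = rp V y l ↔ x = y) ∧ ((G l).Adj (rp V x l) (rp V y l) ↔ (GS G).Adj x y) := by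
  have h1 : ∀ᶠ l in (hyperfilter ℕ : Filter ℕ), ∀ x ∈ T, ∀ y ∈ T,
      (rp V x l = rp V y l ↔ x = y) ∧ ((G l).Adj (rp V x l) (rp V y l) ↔ (GS G).Adj x y) := by
    rw [eventually_all_finite hT]
    intro x _
    rw [eventually_all_finite hT]
    intro y _
    apply Eventually.and
    · by_cases h : x = y
      · exact Eventually.of_forall fun l => by simp [h]
      · have h2 : ∀ᶠ l in (hyperfilter ℕ : Filter ℕ), ¬ rp V x l = rp V y l := by
          rw [Ultrafilter.eventually_not]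
          intro h3
          apply h
          have h4 := (cl_eq V _ _).2 h3
          rwa [cl_rp, cl_rp] at h4
        exact h2.mono fun l hl => ⟨fun h5 => absurd h5 hl, fun h5 => absurd h5 h⟩
    · by_cases h : (GS G).Adj x y
      · have h2 : ∀ᶠ l in (hyperfilter ℕ : Filter ℕ), (G l).Adj (rp V x l) (rp V y l) := h
        exact h2.mono fun l hl => ⟨fun _ => h, fun _ => hl⟩
      · have h2 : ∀ᶠ l in (hyperfilter ℕ : Filter ℕ), ¬ (G l).Adj (rp V x l) (rp V y l) := by
          rw [Ultrafilter.eventually_not]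
          exact h
        exact h2.mono fun l hl => ⟨fun h5 => absurd h5 hl, fun h5 => absurd h5 h⟩
  exact h1.exists

/-- subdivided complete graphs in the ultraproduct -/
theorem hasSub_of {r t : ℕ} (h : HasSub (GS G) r t) : ∃ l, HasSub (G l) r t := by
  obtain ⟨v, P, hv, hP1, hP2, hP3⟩ := h
  have hT : (Set.range v ∪ ⋃ i : Fin t, ⋃ j : Fin t, (P i j) '' (Set.Iic (r + 1))).Finite :=
    (Set.finite_range v).union (Set.finite_iUnion fun i => Set.finite_iUnion fun j =>
      (Set.finite_Iic (r + 1)).image (P i j))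
  obtain ⟨l, hl⟩ := transfer G hT
  have mv : ∀ i, v i ∈ (Set.range v ∪ ⋃ i : Fin t, ⋃ j : Fin t, (P i j) '' (Set.Iic (r + 1))) :=
    fun i => Or.inl ⟨i, rfl⟩
  have mP : ∀ i j a, a ≤ r + 1 →
      P i j a ∈ (Set.range v ∪ ⋃ i : Fin t, ⋃ j : Fin t, (P i j) '' (Set.Iic (r + 1))) := by
    intro i j a ha
    right
    rw [Set.mem_iUnion]
    refine ⟨i, ?_⟩
    rw [Set.mem_iUnion]
    exact ⟨j, a, ha, rfl⟩
  refine ⟨l, fun i => rp V (v i) l, fun i j a => rp V (P i j a) l, ?_, ?_, ?_, ?_⟩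
  · intro i j hij
    exact hv (((hl _ (mv i) _ (mv j)).1).1 hij)
  · intro i j hij
    obtain ⟨h1, h2, h3⟩ := hP1 i j hij
    refine ⟨?_, ?_, ?_⟩
    · show rp V (P i j 0) l = rp V (v i) l
      rw [h1]
    · show rp V (P i j (r + 1)) l = rp V (v j) l
      rw [h2]
    · intro a ha
      exact ((hl _ (mP i j a (by omega)) _ (mP i j (a + 1) (by omega))).2).2 (h3 a ha)
  · intro i j a k hij h1 h2 h3
    exact hP2 i j a k hij h1 h2 (((hl _ (mP i j a (by omega)) _ (mv k)).1).1 h3)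
  · intro i j k m a b hij hkm h1 h2 h3 h4 h5
    exact hP3 i j k m a b hij hkm h1 h2 h3 h4
      (((hl _ (mP i j a (by omega)) _ (mP k m b (by omega))).1).1 h5)

end

theorem key (h : S_A1) (τ : ℕ → ℕ) (R : ℕ) :
    ∃ l, ∀ (V : Type) (G : SimpleGraph V), Flat τ G → ¬ Link G R l := by
  by_contra hcon
  push Not at hcon
  have h1 : ∀ l : ℕ, ∃ (V : Type) (G : SimpleGraph V), Flat τ G ∧ Link G R (l + 1) :=
    fun l => hcon (l + 1)
  choose V G hF hL using h1
  choose v P hP1 hP2 using hL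
  have hge : ∀ j : ℕ, ∀ᶠ l in (hyperfilter ℕ : Filter ℕ), j < l + 1 := by
    intro j
    refine Nat.hyperfilter_le_atTop ?_
    filter_upwards [eventually_ge_atTop j] with l hl
    omega
  let v' : ℕ → VS V := fun i => cl V fun l => if h : i < l + 1 then v l ⟨i, h⟩ else v l 0
  let P' : ℕ → ℕ → ℕ → VS V := fun i j a => cl V fun l =>
    if h : i < l + 1 ∧ j < l + 1 then P l ⟨i, h.1⟩ ⟨j, h.2⟩ a else v l 0
  obtain ⟨r, hr⟩ := h (VS V) (GS G) R v' P' (by
    intro i j hij
    refine ⟨?_, ?_, ?_⟩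
    · rw [cl_eq]
      filter_upwards [hge j] with l hl
      have hi : i < l + 1 := by omega
      rw [dif_pos ⟨hi, hl⟩, dif_pos hi]
      exact (hP1 l ⟨i, hi⟩ ⟨j, hl⟩ hij).1
    · rw [cl_eq]
      filter_upwards [hge j] with l hl
      have hi : i < l + 1 := by omega
      rw [dif_pos ⟨hi, hl⟩, dif_pos hl]
      exact (hP1 l ⟨i, hi⟩ ⟨j, hl⟩ hij).2.1
    · intro a ha
      rw [cl_eq, GS_adj, ← Ultrafilter.eventually_or]
      filter_upwards [hge j] with l hl
      have hi : i < l + 1 := by omega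
      simp only [dif_pos (show i < l + 1 ∧ j < l + 1 from ⟨hi, hl⟩)]
      exact (hP1 l ⟨i, hi⟩ ⟨j, hl⟩ hij).2.2 a ha) (by
    intro i j k m hij hjk hkm a b ha hb heq
    rw [cl_eq] at heq
    obtain ⟨l, h2, h3⟩ := (heq.and (hge m)).exists
    have h4 : i < l + 1 := by omega
    have h5 : j < l + 1 := by omega
    have h6 : k < l + 1 := by omega
    rw [dif_pos ⟨h4, h5⟩, dif_pos ⟨h6, h3⟩] at h2
    exact hP2 l ⟨i, h4⟩ ⟨j, h5⟩ ⟨k, h6⟩ ⟨m, h3⟩ hij hjk hkm a b ha hb h2)
  obtain ⟨l, hl⟩ := hasSub_of G (hr (τ r))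
  exact hF l r hl

theorem a2 (h : S_A1) : S_A := by
  intro τ
  choose μ hμ using key h τ
  exact ⟨μ, fun V G hG R => hμ R V G hG⟩

end Pool.Agent.N953.ND
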